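import Pool.Agent.Helper43.LS.Zones

/-!
# Project LS: the checker
-/

set_option autoImplicit false

namespace Pool.LS

/-- `f i` for all `i < n` -/
def allN : ℕ → (ℕ → Bool) → Bool
  | 0, _ => true
  | n + 1, f => f n && allN n f

/-- the table: position `idx` (9 bits each) of the row `e5` -/
def getRow : List ℕ → ℕ → ℕ
  | [], _ => 0
  | r :: _, 0 => r
  | _ :: l, n + 1 => getRow l n

/-- offset of the strip -/
def off (e5 : ℕ) : ℕ := (5 * e5 - 30) / 3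

/-- look up in the tables: strip (`e2 < 10`, `e3 < 6`), `W` (`e2 ≥ 10`, `e3 < 6`, `e5 ≤ 1`) and
`V` (`e3 ≥ 6`, `e1 ≤ 1`) -/
def look (T W V : List ℕ) (e1 e2 e3 e4 e5 : ℕ) : ℕ :=
  bif Nat.blt e3 6 then
    bif Nat.blt e2 10 then
      (getRow T e5 >>> (9 * ((((e1 - off e5) * 10 + e2) * 6 + e3) * 2 + e4))) % 512
    else (getRow W e5 >>> (9 * (((e1 * 6 + (e2 - 10)) * 6 + e3) * 2 + e4))) % 512
  else (getRow V e5 >>> (9 * (((e1 * 16 + e2) * 8 + (e3 - 6)) * 2 + e4))) % 512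

/-- the code of the canonical representative -/
def cod (T W V : List ℕ) (e1 e2 e3 e4 e5 : ℕ) : ℕ :=
  (fun c d t =>
    (fun a b =>
      bif Nat.ble ((5 * b - c) + d + 29) (3 * a) then
        look T W V (a - 2 * ((3 * a - d - (5 * b - c) - 23) / 6)) c d e4 b
      else bif Nat.ble ((3 * a - d) + c + 15) (5 * b) then
        look T W V a c d e4 (b - (5 * b - c - (3 * a - d) - 10) / 5)
      else look T W V a c d e4 b)
    (e1 - 30 * t) (e5 - 18 * t))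
  (min e2 15) (min e3 13) (min ((e1 - 20) / 30) ((e5 - 12) / 18))

/-! ### The local check for an abstract code function `C` -/

/-- the label with number `l` -/
def decL (l : ℕ) : LLab :=
  bif Nat.blt l 32 then .A l else bif Nat.blt l 48 then .L (l - 32)
  else bif Nat.blt l 53 then .B (l - 48) else .C (l - 53)

/-- the label given by the code function -/
def labOf (C : ℕ → ℕ → ℕ → ℕ → ℕ → ℕ) (e : Mon) : LLab :=
  decL (C e.e1 e.e2 e.e3 e.e4 e.e5 / 8)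

/-- the move given by the code function -/
def moOf (C : ℕ → ℕ → ℕ → ℕ → ℕ → ℕ) (e : Mon) : ℕ := C e.e1 e.e2 e.e3 e.e4 e.e5 % 8

/-- reduced -/
def redB (e1 e2 e3 e4 e5 : ℕ) : Bool :=
  Nat.ble e4 1 && (Nat.ble e1 1 || Nat.ble e3 5) && (Nat.ble e2 9 || Nat.ble e5 1)

/-- `isTopA` -/
def topAB (l e1 e2 e3 e4 e5 : ℕ) : Bool :=
  bif Nat.blt l 32 then Nat.beq (e3 + 3 * e4 + 5 * e5) (3 * e1 + e2 + l)
  else Nat.blt l 48 &&
    Nat.beq (e3 + 3 * e4 + 5 * e5 + (l - 32)) (4 * e1 + 2 * e2 + e3 + e4 + e5 + 2)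

/-- `isBotA` -/
def botAB (l e1 e2 e3 e4 e5 : ℕ) : Bool :=
  bif Nat.blt l 32 then Nat.beq (e3 + 3 * e4 + 5 * e5 + l) (3 * e1 + e2)
  else Nat.blt l 48 &&
    Nat.beq (e1 + e2 + 2 * e3 + 4 * e4 + 6 * e5 + 2) (3 * e1 + e2 + (l - 32))

/-- `inRange` -/
def rangeB (l e1 e2 e3 e4 e5 : ℕ) : Bool :=
  bif Nat.blt l 32 then
    Nat.ble (3 * e1 + e2) (e3 + 3 * e4 + 5 * e5 + l) &&
      Nat.ble (e3 + 3 * e4 + 5 * e5) (3 * e1 + e2 + l)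
  else bif Nat.blt l 48 then
    Nat.ble (3 * e1 + e2 + (l - 32)) (e1 + e2 + 2 * e3 + 4 * e4 + 6 * e5 + 2) &&
      Nat.ble (e3 + 3 * e4 + 5 * e5 + (l - 32)) (4 * e1 + 2 * e2 + e3 + e4 + e5 + 2)
  else Nat.blt l 59

/-- the step with the move `m` -/
def stepB (C : ℕ → ℕ → ℕ → ℕ → ℕ → ℕ) (l m e1 e2 e3 e4 e5 : ℕ) : Bool :=
  bif Nat.beq m 1 then
    Nat.ble 1 e1 && redB (e1 - 1) (e2 + 1) e3 e4 e5 &&
      Nat.beq (C (e1 - 1) (e2 + 1) e3 e4 e5 / 8) (bif Nat.blt l 48 then l else l + 1)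
  else bif Nat.beq m 2 then
    Nat.ble 1 e2 && redB e1 (e2 - 1) (e3 + 1) e4 e5 &&
      Nat.beq (C e1 (e2 - 1) (e3 + 1) e4 e5 / 8) (bif Nat.blt l 48 then l else l + 1)
  else bif Nat.beq m 3 then
    Nat.ble 1 e3 && redB e1 e2 (e3 - 1) (e4 + 1) e5 &&
      Nat.beq (C e1 e2 (e3 - 1) (e4 + 1) e5 / 8) (bif Nat.blt l 48 then l else l + 1)
  else Nat.beq m 4 &&
    Nat.ble 1 e4 && redB e1 e2 e3 (e4 - 1) (e5 + 1) &&
      Nat.beq (C e1 e2 e3 (e4 - 1) (e5 + 1) / 8) (bif Nat.blt l 48 then l else l + 1)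

/-- the predecessors -/
def p1B (C : ℕ → ℕ → ℕ → ℕ → ℕ → ℕ) (e1 e2 e3 e4 e5 : ℕ) : Bool :=
  Nat.ble 1 e2 && redB (e1 + 1) (e2 - 1) e3 e4 e5 &&
    Nat.beq (C (e1 + 1) (e2 - 1) e3 e4 e5 % 8) 1
/-- the predecessors -/
def p2B (C : ℕ → ℕ → ℕ → ℕ → ℕ → ℕ) (e1 e2 e3 e4 e5 : ℕ) : Bool :=
  Nat.ble 1 e3 && redB e1 (e2 + 1) (e3 - 1) e4 e5 &&
    Nat.beq (C e1 (e2 + 1) (e3 - 1) e4 e5 % 8) 2
/-- the predecessors -/
def p3B (C : ℕ → ℕ → ℕ → ℕ → ℕ → ℕ) (e1 e2 e3 e4 e5 : ℕ) : Bool :=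
  Nat.ble 1 e4 && redB e1 e2 (e3 + 1) (e4 - 1) e5 &&
    Nat.beq (C e1 e2 (e3 + 1) (e4 - 1) e5 % 8) 3
/-- the predecessors -/
def p4B (C : ℕ → ℕ → ℕ → ℕ → ℕ → ℕ) (e1 e2 e3 e4 e5 : ℕ) : Bool :=
  Nat.ble 1 e5 && redB e1 e2 e3 (e4 + 1) (e5 - 1) &&
    Nat.beq (C e1 e2 e3 (e4 + 1) (e5 - 1) % 8) 4

/-- exactly one -/
def one4 (a b c d : Bool) : Bool :=
  bif a then !b && !c && !d else bif b then !c && !d else bif c then !d else d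

/-- the local check, `k` is the code of the monomial -/
def chkK (C : ℕ → ℕ → ℕ → ℕ → ℕ → ℕ) (l m e1 e2 e3 e4 e5 : ℕ) : Bool :=
  rangeB l e1 e2 e3 e4 e5 &&
  (bif Nat.beq m 0 then
    topAB l e1 e2 e3 e4 e5 || Nat.beq l 52 || Nat.beq l 58
  else !topAB l e1 e2 e3 e4 e5 && !Nat.beq l 52 && !Nat.beq l 58 &&
    stepB C l m e1 e2 e3 e4 e5) &&
  (bif botAB l e1 e2 e3 e4 e5 || Nat.beq l 48 || Nat.beq l 53 then
    !p1B C e1 e2 e3 e4 e5 && !p2B C e1 e2 e3 e4 e5 && !p3B C e1 e2 e3 e4 e5 &&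
      !p4B C e1 e2 e3 e4 e5
  else one4 (p1B C e1 e2 e3 e4 e5) (p2B C e1 e2 e3 e4 e5) (p3B C e1 e2 e3 e4 e5)
    (p4B C e1 e2 e3 e4 e5)) &&
  (bif topAB l e1 e2 e3 e4 e5 || Nat.beq l 52 then
    redB (e1 + 1) e2 e3 e4 e5 && Nat.beq (C (e1 + 1) e2 e3 e4 e5 / 8) 48 else true) &&
  (bif Nat.beq l 48 then
    Nat.ble 1 e1 && (topAB (C (e1 - 1) e2 e3 e4 e5 / 8) (e1 - 1) e2 e3 e4 e5 ||
      Nat.beq (C (e1 - 1) e2 e3 e4 e5 / 8) 52) else true) &&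
  (bif botAB l e1 e2 e3 e4 e5 || Nat.beq l 53 then
    Nat.beq e4 0 && redB e1 e2 (e3 + 1) (e4 + 1) e5 &&
      Nat.beq (C e1 e2 (e3 + 1) (e4 + 1) e5 / 8) 58 else true) &&
  (bif Nat.beq l 58 then
    Nat.ble 1 e3 && Nat.ble 1 e4 &&
      (botAB (C e1 e2 (e3 - 1) (e4 - 1) e5 / 8) e1 e2 (e3 - 1) (e4 - 1) e5 ||
        Nat.beq (C e1 e2 (e3 - 1) (e4 - 1) e5 / 8) 53) else true) &&
  (bif Nat.ble ((5 * e5 - e2) + e3 + 23) (3 * e1) then Nat.ble 53 l else true) &&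
  (bif Nat.ble ((3 * e1 - e3) + e2 + 10) (5 * e5) then Nat.ble 48 l && Nat.ble l 52 else true) &&
  (bif Nat.ble 15 e2 && Nat.ble e5 1 then
    Nat.ble 53 l || (Nat.ble 32 l && Nat.blt l 48 && !topAB l e1 e2 e3 e4 e5) else true) &&
  (bif Nat.ble 13 e3 && Nat.ble e1 1 then
    (Nat.ble 48 l && Nat.ble l 52) ||
      (Nat.ble 32 l && Nat.blt l 48 && !botAB l e1 e2 e3 e4 e5) else true) &&
  (bif Nat.ble 20 e1 && Nat.ble 12 e5 then !(Nat.ble 32 l && Nat.blt l 48) else true)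

/-- the local check -/
def chk (C : ℕ → ℕ → ℕ → ℕ → ℕ → ℕ) (e1 e2 e3 e4 e5 : ℕ) : Bool :=
  chkK C (C e1 e2 e3 e4 e5 / 8) (C e1 e2 e3 e4 e5 % 8) e1 e2 e3 e4 e5

/-- the pairs `(e1, e5)` that occur in the window -/
def pairB (e1 e5 : ℕ) : Bool :=
  Nat.blt (3 * e1) (5 * e5 + 51) && Nat.blt (5 * e5) (3 * e1 + 39) &&
    !(Nat.ble (51) e1 && Nat.ble (31) e5)

/-- the last conditions of the window -/
def omB (e1 e2 e3 e5 : ℕ) : Bool :=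
  Nat.blt (3 * e1) ((5 * e5 + 5 - e2) + e3 + 32) && Nat.blt (5 * e5) ((3 * e1 + 3 - e3) + e2 + 20)

/-- the check of the window for a given `e5` -/
def chkRow (C : ℕ → ℕ → ℕ → ℕ → ℕ → ℕ) (n e5 : ℕ) : Bool :=
  allN n fun e1 => bif pairB e1 e5 then
    allN (bif Nat.ble e5 1 then 17 else 10) fun e2 =>
      allN (bif Nat.ble e1 1 then 15 else 6) fun e3 =>
        bif omB e1 e2 e3 e5 then chk C e1 e2 e3 0 e5 && chk C e1 e2 e3 1 e5 else true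
    else true

end Pool.LS
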