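import Pool.Agent.Helper43.LS.Defs

/-!
# Project LS: the periodic rule

The parameters: period `PM` (in units of `x₁^5 x₅^3`) and beginning `PJ` of the periodic part.
-/

set_option autoImplicit false

namespace Pool.LS

/-- Labels, where `L c` is the label of the long chains of length `deg + 2 - c`. -/
inductive LLab where
  | A (o : ℕ)
  | L (c : ℕ)
  | B (j : ℕ)
  | C (j : ℕ)
deriving DecidableEq

/-- The label of the next element of a chain. -/
def LLab.next : LLab → LLab
  | .A o => .A o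
  | .L c => .L c
  | .B j => .B (j + 1)
  | .C j => .C (j + 1)

/-- The degree. -/
def deg (e : Mon) : ℕ := e.e1 + e.e2 + e.e3 + e.e4 + e.e5

/-- The inequality `d2 e ≤ o`, `<`, `=` etc. in the natural numbers: `d2 e = up e - dn e`. -/
def up (e : Mon) : ℕ := e.e3 + 3 * e.e4 + 5 * e.e5

/-- See `up`. -/
def dn (e : Mon) : ℕ := 3 * e.e1 + e.e2

/-- The end of a chain `A` or `L`. -/
def isTopA (l : LLab) (e : Mon) : Prop :=
  match l with
  | .A o => up e = dn e + o
  | .L c => up e + c = dn e + deg e + 2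
  | _ => False

/-- The beginning of a chain `A` or `L`. -/
def isBotA (l : LLab) (e : Mon) : Prop :=
  match l with
  | .A o => up e + o = dn e
  | .L c => up e + deg e + 2 = dn e + c
  | _ => False

/-- The bounds `-ord ≤ d2 e ≤ ord` on the chains `A` and `L`. -/
def inRange (l : LLab) (e : Mon) : Prop :=
  match l with
  | .A o => dn e ≤ up e + o ∧ up e ≤ dn e + o
  | .L c => dn e + c ≤ up e + deg e + 2 ∧ up e + c ≤ dn e + deg e + 2
  | .B j => j ≤ 4
  | .C j => j ≤ 5

/-- The result of the move `k`, if possible. -/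
def mvF (k : ℕ) (e : Mon) : Option Mon :=
  match k with
  | 1 => if 1 ≤ e.e1 then some { e with e1 := e.e1 - 1, e2 := e.e2 + 1 } else none
  | 2 => if 1 ≤ e.e2 then some { e with e2 := e.e2 - 1, e3 := e.e3 + 1 } else none
  | 3 => if 1 ≤ e.e3 then some { e with e3 := e.e3 - 1, e4 := e.e4 + 1 } else none
  | 4 => if 1 ≤ e.e4 then some { e with e4 := e.e4 - 1, e5 := e.e5 + 1 } else none
  | _ => none

/-- The inverse of the move `k`, if possible. -/
def mvB (k : ℕ) (e : Mon) : Option Mon :=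
  match k with
  | 1 => if 1 ≤ e.e2 then some { e with e1 := e.e1 + 1, e2 := e.e2 - 1 } else none
  | 2 => if 1 ≤ e.e3 then some { e with e2 := e.e2 + 1, e3 := e.e3 - 1 } else none
  | 3 => if 1 ≤ e.e4 then some { e with e3 := e.e3 + 1, e4 := e.e4 - 1 } else none
  | 4 => if 1 ≤ e.e5 then some { e with e4 := e.e4 + 1, e5 := e.e5 - 1 } else none
  | _ => none

/-- `e` has a predecessor through the move `k`. -/
def Pred (mo : Mon → ℕ) (k : ℕ) (e : Mon) : Prop :=
  ∃ g, mvB k e = some g ∧ Red 2 2 g ∧ mo g = k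

/-- The local conditions at `e`. -/
structure Loc (lab : Mon → LLab) (mo : Mon → ℕ) (e : Mon) : Prop where
  range : inRange (lab e) e
  step : mo e ≠ 0 → ∃ f, mvF (mo e) e = some f ∧ Red 2 2 f ∧ lab f = (lab e).next ∧
    ¬ isTopA (lab e) e ∧ lab e ≠ .B 4 ∧ lab e ≠ .C 5
  stop : mo e = 0 → isTopA (lab e) e ∨ lab e = .B 4 ∨ lab e = .C 5
  /-- not a beginning: exactly one predecessor -/
  pred : ¬ (isBotA (lab e) e ∨ lab e = .B 0 ∨ lab e = .C 0) → ∃ k, Pred mo k e
  predU : ∀ k k', Pred mo k e → Pred mo k' e → k = k'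
  start : (isBotA (lab e) e ∨ lab e = .B 0 ∨ lab e = .C 0) → ∀ k, ¬ Pred mo k e
  top : (isTopA (lab e) e ∨ lab e = .B 4) → Red 2 2 (x1 e) ∧ lab (x1 e) = .B 0
  topOf : lab e = .B 0 → ∃ t, e = x1 t ∧ (isTopA (lab t) t ∨ lab t = .B 4)
  bot : (isBotA (lab e) e ∨ lab e = .C 0) → e.e4 = 0 ∧ Red 2 2 (x34 e) ∧ lab (x34 e) = .C 5
  botOf : lab e = .C 5 → ∃ u, e = x34 u ∧ (isBotA (lab u) u ∨ lab u = .C 0)

/-- Conversion of the labels. -/
def toLab (lab : Mon → LLab) (e : Mon) : Lab :=
  match lab e with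
  | .A o => .A o
  | .L c => .A (deg e + 2 - c)
  | .B j => .B j
  | .C j => .C j

end Pool.LS
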