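import Pool.Agent.Helper43.LS.Zones

/-!
# Project LS, module LS-4: functions of the canonical representative are invariant
-/

set_option autoImplicit false
namespace Pool.LS
/-- the second step of `ka` -/
def kc (c d e4 a b : ℕ) : Mon :=
  if (5 * b - c) + d + 29 ≤ 3 * a then
    ⟨a - 2 * ((3 * a - d - (5 * b - c) - 23) / 6), c, d, e4, b⟩
  else if (3 * a - d) + c + 15 ≤ 5 * b then
    ⟨a, c, d, e4, b - (5 * b - c - (3 * a - d) - 10) / 5⟩
  else ⟨a, c, d, e4, b⟩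

theorem ka_kc (e1 e2 e3 e4 e5 : ℕ) : ka ⟨e1, e2, e3, e4, e5⟩ =
    kc (min e2 15) (min e3 13) e4 (e1 - 30 * min ((e1 - 20) / 30) ((e5 - 12) / 18))
      (e5 - 18 * min ((e1 - 20) / 30) ((e5 - 12) / 18)) := rfl

theorem kcE (c d e4 a b : ℕ) (h : (5 * b - c) + d + 23 ≤ 3 * a) :
    kc c d e4 (a + 2) b = kc c d e4 a b := by
  unfold kc
  rw [if_pos (by omega)]
  split_ifs <;> simp only [Mon.mk.injEq, and_true, true_and] <;> omega

theorem kcD (c d e4 a b : ℕ) (h : (3 * a - d) + c + 10 ≤ 5 * b) :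
    kc c d e4 a (b + 1) = kc c d e4 a b := by
  unfold kc
  rw [if_neg (by omega), if_pos (by omega), if_neg (by omega)]
  split_ifs <;> simp only [Mon.mk.injEq, and_true, true_and] <;> omega


theorem ka2 (e : Mon) (hz : z2 e) : ka (e.add v2) = ka e := by
  obtain ⟨e1, e2, e3, e4, e5⟩ := e
  simp only [z2] at hz
  have h1 : min (e2 + 1) 15 = 15 := by omega
  have h2 : min e2 15 = 15 := by omega
  simp only [Mon.add, v2, Nat.add_zero]
  rw [ka_kc, ka_kc, h1, h2]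

theorem ka3 (e : Mon) (hz : z3 e) : ka (e.add v3) = ka e := by
  obtain ⟨e1, e2, e3, e4, e5⟩ := e
  simp only [z3] at hz
  have h1 : min (e3 + 1) 13 = 13 := by omega
  have h2 : min e3 13 = 13 := by omega
  simp only [Mon.add, v3, Nat.add_zero]
  rw [ka_kc, ka_kc, h1, h2]

theorem kaS (e : Mon) (hz : zS e) : ka (e.add vS) = ka e := by
  obtain ⟨e1, e2, e3, e4, e5⟩ := e
  simp only [zS] at hz
  have h1 : min ((e1 + 30 - 20) / 30) ((e5 + 18 - 12) / 18) =
      min ((e1 - 20) / 30) ((e5 - 12) / 18) + 1 := by omega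
  simp only [Mon.add, vS, Nat.add_zero]
  rw [ka_kc, ka_kc, h1]
  congr 1 <;> omega

theorem kaE (e : Mon) (hr : Red 2 2 e) (hz : zE e) : ka (e.add vE) = ka e := by
  obtain ⟨e1, e2, e3, e4, e5⟩ := e
  simp only [zE, Red] at hz hr
  simp only [Mon.add, vE, Nat.add_zero]
  have ht : min ((e1 + 2 - 20) / 30) ((e5 - 12) / 18) = (e5 - 12) / 18 := by omega
  have ht2 : min ((e1 - 20) / 30) ((e5 - 12) / 18) = (e5 - 12) / 18 := by omega
  have g2 : e1 + 2 - 30 * ((e5 - 12) / 18) = e1 - 30 * ((e5 - 12) / 18) + 2 := by omega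
  rw [ka_kc, ka_kc, ht, ht2, g2]
  exact kcE _ _ _ _ _ (by omega)

theorem kaD (e : Mon) (hr : Red 2 2 e) (hz : zD e) : ka (e.add vD) = ka e := by
  obtain ⟨e1, e2, e3, e4, e5⟩ := e
  simp only [zD, Red] at hz hr
  simp only [Mon.add, vD, Nat.add_zero]
  have ht : min ((e1 - 20) / 30) ((e5 + 1 - 12) / 18) = (e1 - 20) / 30 := by omega
  have ht2 : min ((e1 - 20) / 30) ((e5 - 12) / 18) = (e1 - 20) / 30 := by omega
  have g2 : e5 + 1 - 18 * ((e1 - 20) / 30) = e5 - 18 * ((e1 - 20) / 30) + 1 := by omega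
  rw [ka_kc, ka_kc, ht, ht2, g2]
  exact kcD _ _ _ _ _ (by omega)

/-- LS-4 -/
theorem inv_ka {St : Type} (g : Mon → St) : Inv (fun e => g (ka e)) :=
  ⟨fun e h1 h2 => congrArg g (kaE e h1 h2), fun e h1 h2 => congrArg g (kaD e h1 h2),
   fun e _ h2 => congrArg g (ka2 e h2), fun e _ h2 => congrArg g (ka3 e h2),
   fun e _ h2 => congrArg g (kaS e h2)⟩
end Pool.LS
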