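import Pool.Agent.Helper43.LS.Tab
import Pool.Agent.Helper43.LS.InvKa
import Pool.Agent.Helper4.LS.Window
import Pool.Agent.Helper97.LS.Sound
import Pool.Agent.Helper87.LS.GoodOf
import Pool.Agent.Helper37.LS.Good

/-!
# Project LS, module LS-7: assembly
-/

set_option autoImplicit false

namespace Pool.LS

/-- the states -/
theorem inv_CC : Inv (fun e => (labOf CC e, moOf CC e)) := by
  have h := inv_ka (fun r : Mon => (decL (look tT tW tV r.e1 r.e2 r.e3 r.e4 r.e5 / 8),
    look tT tW tV r.e1 r.e2 r.e3 r.e4 r.e5 % 8))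
  have he : (fun e => (labOf CC e, moOf CC e)) = fun e =>
      (fun r : Mon => (decL (look tT tW tV r.e1 r.e2 r.e3 r.e4 r.e5 / 8),
        look tT tW tV r.e1 r.e2 r.e3 r.e4 r.e5 % 8)) (ka e) := by
    funext e
    show (decL (cod tT tW tV e.e1 e.e2 e.e3 e.e4 e.e5 / 8),
      cod tT tW tV e.e1 e.e2 e.e3 e.e4 e.e5 % 8) = _
    rw [cod_eq]
  rw [he]
  exact h

/-- `L(5,n)` is a symmetric chain order. -/
theorem sco_of_rows (h : ∀ e5 < 39, chkRow CC 67 e5 = true) (n : ℕ) : SCO 5 n :=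
  sco_of_good 2 2 (by decide) (by decide) _ _ (good_of_loc (labOf CC) (moOf CC) fun e hr =>
    (loc_of_window (labOf CC) (moOf CC) inv_CC (rows_sound CC h) e hr).1) n

end Pool.LS
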