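import Mathlib

/-!
# Project LS: symmetric chain decompositions of `L(5,n)`

Definitions. A monomial `x₀^e₀ x₁^e₁ ⋯ x₅^e₅` of degree `n` is the partition with `e_i` parts `i`.
-/

set_option autoImplicit false

namespace Pool.LS

/-- The exponents of `x₁, …, x₅`. -/
structure Mon where
  e1 : ℕ
  e2 : ℕ
  e3 : ℕ
  e4 : ℕ
  e5 : ℕ
deriving DecidableEq

/-- The reduced monomials: `x₄` occurs at most once, and the monomial is divisible neither by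
`x₁^α x₃^(3α)` nor by `x₂^(5β) x₅^β`. -/
def Red (α β : ℕ) (e : Mon) : Prop :=
  e.e4 ≤ 1 ∧ (e.e1 < α ∨ e.e3 < 3 * α) ∧ (e.e2 < 5 * β ∨ e.e5 < β)

/-- Twice the rank minus five times the degree. -/
def d2 (e : Mon) : ℤ := -3 * (e.e1 : ℤ) - e.e2 + e.e3 + 3 * e.e4 + 5 * e.e5

/-- `f` is obtained from `e` by replacing a factor `x_k` by `x_{k+1}`, where `1 ≤ k ≤ 4`. -/
def Mv (k : ℕ) (e f : Mon) : Prop :=
  (k = 1 ∧ e.e1 = f.e1 + 1 ∧ f.e2 = e.e2 + 1 ∧ f.e3 = e.e3 ∧ f.e4 = e.e4 ∧ f.e5 = e.e5) ∨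
  (k = 2 ∧ f.e1 = e.e1 ∧ e.e2 = f.e2 + 1 ∧ f.e3 = e.e3 + 1 ∧ f.e4 = e.e4 ∧ f.e5 = e.e5) ∨
  (k = 3 ∧ f.e1 = e.e1 ∧ f.e2 = e.e2 ∧ e.e3 = f.e3 + 1 ∧ f.e4 = e.e4 + 1 ∧ f.e5 = e.e5) ∨
  (k = 4 ∧ f.e1 = e.e1 ∧ f.e2 = e.e2 ∧ f.e3 = e.e3 ∧ e.e4 = f.e4 + 1 ∧ f.e5 = e.e5 + 1)

/-- The labels. -/
inductive Lab where
  | A (o : ℕ)
  | B (j : ℕ)
  | C (j : ℕ)
deriving DecidableEq

/-- The label of the next element of a chain. -/
def Lab.next : Lab → Lab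
  | .A o => .A o
  | .B j => .B (j + 1)
  | .C j => .C (j + 1)

/-- `e` is the top of its chain. -/
def Top (lab : Mon → Lab) (e : Mon) : Prop :=
  lab e = .B 4 ∨ ∃ o : ℕ, lab e = .A o ∧ d2 e = o

/-- `e` is the bottom of its chain. -/
def Bot (lab : Mon → Lab) (e : Mon) : Prop :=
  lab e = .C 0 ∨ ∃ o : ℕ, lab e = .A o ∧ d2 e = -o

/-- `x₁ e`. -/
def x1 (e : Mon) : Mon := { e with e1 := e.e1 + 1 }

/-- `x₃ x₄ e`. -/
def x34 (e : Mon) : Mon := { e with e3 := e.e3 + 1, e4 := e.e4 + 1 }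

/-- A rule `lab, mo` (label and move of a reduced monomial; the move `0` means the end of the
chain of reduced monomials) satisfying the local conditions. -/
structure Good (α β : ℕ) (lab : Mon → Lab) (mo : Mon → ℕ) : Prop where
  /-- every element that is not an end of a chain has a successor with the next label -/
  step : ∀ e, Red α β e → mo e ≠ 0 → ∃ f, Red α β f ∧ Mv (mo e) e f ∧ lab f = (lab e).next
  /-- ends of chains -/
  stop : ∀ e, Red α β e → (mo e = 0 ↔ Top lab e ∨ lab e = .C 5)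
  /-- `f` has at most one predecessor -/
  inj : ∀ e e' f, Red α β e → Red α β e' → Red α β f → mo e ≠ 0 → mo e' ≠ 0 →
    Mv (mo e) e f → Mv (mo e') e' f → e = e'
  /-- `f` has a predecessor unless it is the beginning of a chain -/
  start : ∀ f, Red α β f →
    ((∃ e, Red α β e ∧ mo e ≠ 0 ∧ Mv (mo e) e f) ↔ ¬ (Bot lab f ∨ lab f = .B 0))
  /-- the tops `t` are in bijection with the beginnings `x₁ t` of the chains `B` -/
  top : ∀ t, Red α β t → Top lab t → Red α β (x1 t) ∧ lab (x1 t) = .B 0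
  topOf : ∀ e, Red α β e → lab e = .B 0 → ∃ t, e = x1 t ∧ Top lab t
  /-- the bottoms `u` are in bijection with the ends `x₃ x₄ u` of the chains `C` -/
  bot : ∀ u, Red α β u → Bot lab u → u.e4 = 0 ∧ Red α β (x34 u) ∧ lab (x34 u) = .C 5
  botOf : ∀ e, Red α β e → lab e = .C 5 → ∃ u, e = x34 u ∧ Bot lab u
  /-- bounds of the labels -/
  boundB : ∀ e j, Red α β e → lab e = .B j → j ≤ 4
  boundC : ∀ e j, Red α β e → lab e = .C j → j ≤ 5

/-- `L(m,n)` is a symmetric chain order. -/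
def SCO (m n : ℕ) : Prop :=
  ∃ P : Set (Set (Fin m → ℕ)),
    (∀ C ∈ P,
      C ⊆ {a : Fin m → ℕ | Monotone a ∧ ∀ i, a i ≤ n} ∧
      IsChain (· ≤ ·) C ∧
      Set.InjOn (fun a : Fin m → ℕ => ∑ i, a i) C ∧
      ∃ j : ℕ, (fun a : Fin m → ℕ => ∑ i, a i) '' C = Set.Icc j (m * n - j)) ∧
    ∀ a : Fin m → ℕ, Monotone a → (∀ i, a i ≤ n) →
      ∃! C : Set (Fin m → ℕ), C ∈ P ∧ a ∈ C

end Pool.LS
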