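import Pool.Agent.Helper43.LS.Per

/-!
# Project LS: zones, canonical representatives

Parameters `m = 6` (period) and `j = 4` (beginning of the periodic part of the diagonal wall), in
units of `x₁^5 x₅^3`: `5 m = 30`, `3 m = 18`, `5 j = 20`, `3 j = 12`, `5 (j + m) = 50`,
`3 (j + m) = 30`. The proofs should work (by `omega`) for other numerals.
-/

set_option autoImplicit false

namespace Pool.LS

/-- Addition of exponents. -/
def Mon.add (e v : Mon) : Mon :=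
  ⟨e.e1 + v.e1, e.e2 + v.e2, e.e3 + v.e3, e.e4 + v.e4, e.e5 + v.e5⟩

/-- the shifts -/
def vE : Mon := ⟨2, 0, 0, 0, 0⟩
def vD : Mon := ⟨0, 0, 0, 0, 1⟩
def v2 : Mon := ⟨0, 1, 0, 0, 0⟩
def v3 : Mon := ⟨0, 0, 1, 0, 0⟩
def vS : Mon := ⟨30, 0, 0, 0, 18⟩

/-- the zone `E`: `p ≥ max 0 q + 23`, where `p = 3 e1 - e3`, `q = 5 e5 - e2` -/
def zE (e : Mon) : Prop := (5 * e.e5 - e.e2) + e.e3 + 23 ≤ 3 * e.e1
/-- the zone `D`: `q ≥ max 0 p + 10` -/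
def zD (e : Mon) : Prop := (3 * e.e1 - e.e3) + e.e2 + 10 ≤ 5 * e.e5
/-- the `x₂`-wall -/
def z2 (e : Mon) : Prop := 15 ≤ e.e2 ∧ e.e5 ≤ 1
/-- the `x₃`-wall -/
def z3 (e : Mon) : Prop := 13 ≤ e.e3 ∧ e.e1 ≤ 1
/-- the periodic part of the diagonal wall -/
def zS (e : Mon) : Prop := 20 ≤ e.e1 ∧ 12 ≤ e.e5

/-- The canonical representative. -/
def ka (e : Mon) : Mon :=
  let c := min e.e2 15
  let d := min e.e3 13
  let t := min ((e.e1 - 20) / 30) ((e.e5 - 12) / 18)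
  let a := e.e1 - 30 * t
  let b := e.e5 - 18 * t
  if (5 * b - c) + d + 29 ≤ 3 * a then
    ⟨a - 2 * ((3 * a - d - (5 * b - c) - 23) / 6), c, d, e.e4, b⟩
  else if (3 * a - d) + c + 15 ≤ 5 * b then
    ⟨a, c, d, e.e4, b - (5 * b - c - (3 * a - d) - 10) / 5⟩
  else ⟨a, c, d, e.e4, b⟩

/-- The states are invariant under the shifts. -/
structure Inv {St : Type} (st : Mon → St) : Prop where
  invE : ∀ e, Red 2 2 e → zE e → st (e.add vE) = st e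
  invD : ∀ e, Red 2 2 e → zD e → st (e.add vD) = st e
  inv2 : ∀ e, Red 2 2 e → z2 e → st (e.add v2) = st e
  inv3 : ∀ e, Red 2 2 e → z3 e → st (e.add v3) = st e
  invS : ∀ e, Red 2 2 e → zS e → st (e.add vS) = st e

/-- The restrictions of the labels in the zones. -/
structure ZoneOK (lab : Mon → LLab) (e : Mon) : Prop where
  okE : zE e → ∃ j, lab e = .C j
  okD : zD e → ∃ j, lab e = .B j
  ok2 : z2 e → (∃ j, lab e = .C j) ∨ ∃ c, lab e = .L c ∧ ¬ isTopA (.L c) e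
  ok3 : z3 e → (∃ j, lab e = .B j) ∨ ∃ c, lab e = .L c ∧ ¬ isBotA (.L c) e
  okS : zS e → ∀ c, lab e ≠ .L c

/-- The window. -/
def InOm (e : Mon) : Prop :=
  e.e2 ≤ 16 ∧ e.e3 ≤ 14 ∧ ¬ ((5 * e.e5 + 5 - e.e2) + e.e3 + 32 ≤ 3 * e.e1) ∧
    ¬ ((3 * e.e1 + 3 - e.e3) + e.e2 + 20 ≤ 5 * e.e5) ∧
    ¬ (51 ≤ e.e1 ∧ 31 ≤ e.e5)

end Pool.LS
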